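import Mathlib

/-!
# Dense polynomials for the kernel (helper49, for MP_37fa12_co)

`D1 = List ℤ` (one variable), `D2 = List D1`, `D3 = List D2`; `v3 p a b c = ∑ p_ijk a^i b^j c^k`.
-/

set_option autoImplicit false

namespace Pool.Agent.SOS

abbrev D1 : Type := List ℤ
abbrev D2 : Type := List (List ℤ)
abbrev D3 : Type := List (List (List ℤ))

/-- Horner evaluation with values `v` of the coefficients -/
def hor {α : Type} (v : α → ℝ) (x : ℝ) : List α → ℝ
  | [] => 0
  | a :: p => v a + x * hor v x p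

def v1 (p : D1) (x : ℝ) : ℝ := hor (fun c : ℤ => (c : ℝ)) x p
def v2 (p : D2) (x y : ℝ) : ℝ := hor (fun q => v1 q y) x p
def v3 (p : D3) (x y z : ℝ) : ℝ := hor (fun q => v2 q y z) x p

section gen

variable {α : Type}

def addL (f : α → α → α) : List α → List α → List α
  | [], q => q
  | a :: p, [] => a :: p
  | a :: p, b :: q => f a b :: addL f p q

theorem hor_nil (v : α → ℝ) (x : ℝ) : hor v x [] = 0 := rfl

theorem hor_cons (v : α → ℝ) (x : ℝ) (a : α) (p : List α) :
    hor v x (a :: p) = v a + x * hor v x p := rfl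

theorem hor_add {v : α → ℝ} {f : α → α → α} (hf : ∀ a b, v (f a b) = v a + v b) (x : ℝ) :
    ∀ p q : List α, hor v x (addL f p q) = hor v x p + hor v x q
  | [], q => by simp [addL, hor_nil]
  | a :: p, [] => by simp [addL, hor_nil]
  | a :: p, b :: q => by
    simp only [addL, hor_cons, hf, hor_add hf x p q]
    ring

theorem hor_map {v : α → ℝ} {g : α → α} {c : ℝ} (hg : ∀ a, v (g a) = c * v a) (x : ℝ) :
    ∀ p : List α, hor v x (p.map g) = c * hor v x p
  | [] => by simp [hor_nil]
  | a :: p => by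
    simp only [List.map_cons, hor_cons, hg, hor_map hg x p]
    ring

theorem hor_congr {v w : α → ℝ} (h : ∀ a, v a = w a) (x : ℝ) :
    ∀ p : List α, hor v x p = hor w x p
  | [] => rfl
  | a :: p => by simp only [hor_cons, h, hor_congr h x p]

theorem hor_map' {β : Type} {v : β → ℝ} {w : α → ℝ} {g : α → β} (h : ∀ a, v (g a) = w a) (x : ℝ) :
    ∀ p : List α, hor v x (p.map g) = hor w x p
  | [] => rfl
  | a :: p => by simp only [List.map_cons, hor_cons, h, hor_map' h x p]

/-- product; `z` is the zero of the coefficients -/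
def mulL (f m : α → α → α) (z : α) : List α → List α → List α
  | [], _ => []
  | a :: p, q => addL f (q.map (m a)) (z :: mulL f m z p q)

theorem hor_mul {v : α → ℝ} {f m : α → α → α} {z : α} (hf : ∀ a b, v (f a b) = v a + v b)
    (hm : ∀ a b, v (m a b) = v a * v b) (hz : v z = 0) (x : ℝ) :
    ∀ p q : List α, hor v x (mulL f m z p q) = hor v x p * hor v x q
  | [], q => by simp [mulL, hor_nil]
  | a :: p, q => by
    rw [mulL, hor_add hf, hor_map (c := v a) (fun b => hm a b), hor_cons, hor_cons, hz,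
      hor_mul hf hm hz x p q]
    ring

/-- substitution of `m + r x` for the variable; `sm`, `sr` are the multiplications by `m`, `r` -/
def shL (f : α → α → α) (sm sr : α → α) (z : α) : List α → List α
  | [] => []
  | a :: p => addL f [a] (addL f ((shL f sm sr z p).map sm) (z :: (shL f sm sr z p).map sr))

theorem hor_sh {v : α → ℝ} {f : α → α → α} {sm sr : α → α} {z : α} {m r : ℝ}
    (hf : ∀ a b, v (f a b) = v a + v b) (hm : ∀ a, v (sm a) = m * v a)
    (hr : ∀ a, v (sr a) = r * v a) (hz : v z = 0) (x : ℝ) :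
    ∀ p : List α, hor v x (shL f sm sr z p) = hor v (m + r * x) p
  | [] => by simp [shL, hor_nil]
  | a :: p => by
    rw [shL, hor_add hf, hor_add hf, hor_map hm, hor_cons, hor_cons, hor_map hr, hz,
      hor_sh hf hm hr hz x p, hor_nil, hor_cons]
    ring

end gen

/-! ### the operations -/

def add1 : D1 → D1 → D1 := addL Int.add
def add2 : D2 → D2 → D2 := addL add1
def add3 : D3 → D3 → D3 := addL add2

def sc1 (c : ℤ) (p : D1) : D1 := p.map (Int.mul c)
def sc2 (c : ℤ) (p : D2) : D2 := p.map (sc1 c)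
def sc3 (c : ℤ) (p : D3) : D3 := p.map (sc2 c)

def mul1 : D1 → D1 → D1 := mulL Int.add Int.mul 0
def mul2 : D2 → D2 → D2 := mulL add1 mul1 []
def mul3 : D3 → D3 → D3 := mulL add2 mul2 []

/-- `p(m + r x)` -/
def sh1 (m r : ℤ) : D1 → D1 := shL Int.add (Int.mul m) (Int.mul r) 0
/-- substitution in the first variable -/
def sh2 (m r : ℤ) : D2 → D2 := shL add1 (sc1 m) (sc1 r) []
/-- substitution in the first variable -/
def sh3 (m r : ℤ) : D3 → D3 := shL add2 (sc2 m) (sc2 r) []
/-- substitution in the second variable -/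
def shB (m r : ℤ) (p : D3) : D3 := p.map (sh2 m r)
/-- substitution in the third variable -/
def shC (m r : ℤ) (p : D3) : D3 := p.map fun q => q.map (sh1 m r)
/-- substitution in the second variable -/
def shB2 (m r : ℤ) (p : D2) : D2 := p.map (sh1 m r)

theorem v1_nil (x : ℝ) : v1 [] x = 0 := rfl
theorem v2_nil (x y : ℝ) : v2 [] x y = 0 := rfl
theorem v3_nil (x y z : ℝ) : v3 [] x y z = 0 := rfl
theorem v1_cons (a : ℤ) (p : D1) (x : ℝ) : v1 (a :: p) x = a + x * v1 p x := rfl
theorem v2_cons (a : D1) (p : D2) (x y : ℝ) : v2 (a :: p) x y = v1 a y + x * v2 p x y := rfl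
theorem v3_cons (a : D2) (p : D3) (x y z : ℝ) :
    v3 (a :: p) x y z = v2 a y z + x * v3 p x y z := rfl

theorem castAdd (a b : ℤ) : ((Int.add a b : ℤ) : ℝ) = a + b := by
  show (((a + b : ℤ)) : ℝ) = _
  push_cast
  rfl

theorem castMul (a b : ℤ) : ((Int.mul a b : ℤ) : ℝ) = a * b := by
  show (((a * b : ℤ)) : ℝ) = _
  push_cast
  rfl

theorem v1_add (p q : D1) (x : ℝ) : v1 (add1 p q) x = v1 p x + v1 q x := hor_add castAdd x p q
theorem v2_add (p q : D2) (x y : ℝ) : v2 (add2 p q) x y = v2 p x y + v2 q x y :=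
  hor_add (fun a b => v1_add a b y) x p q
theorem v3_add (p q : D3) (x y z : ℝ) : v3 (add3 p q) x y z = v3 p x y z + v3 q x y z :=
  hor_add (fun a b => v2_add a b y z) x p q

theorem v1_sc (c : ℤ) (p : D1) (x : ℝ) : v1 (sc1 c p) x = c * v1 p x :=
  hor_map (fun a => castMul c a) x p
theorem v2_sc (c : ℤ) (p : D2) (x y : ℝ) : v2 (sc2 c p) x y = c * v2 p x y :=
  hor_map (fun a => v1_sc c a y) x p
theorem v3_sc (c : ℤ) (p : D3) (x y z : ℝ) : v3 (sc3 c p) x y z = c * v3 p x y z :=
  hor_map (fun a => v2_sc c a y z) x p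

theorem v1_mul (p q : D1) (x : ℝ) : v1 (mul1 p q) x = v1 p x * v1 q x :=
  hor_mul castAdd castMul Int.cast_zero x p q
theorem v2_mul (p q : D2) (x y : ℝ) : v2 (mul2 p q) x y = v2 p x y * v2 q x y :=
  hor_mul (fun a b => v1_add a b y) (fun a b => v1_mul a b y) rfl x p q
theorem v3_mul (p q : D3) (x y z : ℝ) : v3 (mul3 p q) x y z = v3 p x y z * v3 q x y z :=
  hor_mul (fun a b => v2_add a b y z) (fun a b => v2_mul a b y z) rfl x p q

theorem v1_sh (m r : ℤ) (p : D1) (x : ℝ) : v1 (sh1 m r p) x = v1 p (m + r * x) :=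
  hor_sh castAdd (fun a => castMul m a) (fun a => castMul r a) Int.cast_zero x p
theorem v2_sh (m r : ℤ) (p : D2) (x y : ℝ) : v2 (sh2 m r p) x y = v2 p (m + r * x) y :=
  hor_sh (fun a b => v1_add a b y) (fun a => v1_sc m a y) (fun a => v1_sc r a y) rfl x p
theorem v3_sh (m r : ℤ) (p : D3) (x y z : ℝ) : v3 (sh3 m r p) x y z = v3 p (m + r * x) y z :=
  hor_sh (fun a b => v2_add a b y z) (fun a => v2_sc m a y z) (fun a => v2_sc r a y z) rfl x p
theorem v3_shB (m r : ℤ) (p : D3) (x y z : ℝ) : v3 (shB m r p) x y z = v3 p x (m + r * y) z :=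
  hor_map' (fun a => v2_sh m r a y z) x p
theorem v2_shB2 (m r : ℤ) (p : D2) (x y : ℝ) : v2 (shB2 m r p) x y = v2 p x (m + r * y) :=
  hor_map' (fun a => v1_sh m r a y) x p
theorem v3_shC (m r : ℤ) (p : D3) (x y z : ℝ) : v3 (shC m r p) x y z = v3 p x y (m + r * z) :=
  hor_map' (fun a => v2_shB2 m r a y z) x p

/-! ### exchange of the first two variables -/

/-- the coefficient lists in front of the columns: `p` gets the new row `r` -/
def tcons (r : D2) (p : D3) : D3 :=
  match r, p with
  | [], p => p.map (fun q => [] :: q)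
  | a :: r, [] => [a] :: (r.map fun c => [c])
  | a :: r, q :: p => (a :: q) :: tcons r p

/-- exchange of the first two variables -/
def swp : D3 → D3
  | [] => []
  | r :: p => tcons r (swp p)

theorem v3_single (r : D2) (x y z : ℝ) : v3 (r.map fun c => [c]) y x z = v2 r y z := by
  induction r with
  | nil => rfl
  | cons a r ih =>
    rw [List.map_cons, v3_cons, ih, v2_cons]
    simp [v2_cons, v2_nil]

theorem v3_tcons : ∀ (r : D2) (p : D3) (x y z : ℝ),
    v3 (tcons r p) y x z = v2 r y z + x * v3 p y x z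
  | [], p, x, y, z => by
    rw [tcons, v2_nil, zero_add]
    exact hor_map (c := x) (fun q => by
      show v2 ([] :: q) x z = x * v2 q x z
      rw [v2_cons, v1_nil, zero_add]) y p
  | a :: r, [], x, y, z => by
    rw [tcons, v3_cons, v3_single, v2_cons, v2_cons, v2_nil, v3_nil]
    ring
  | a :: r, q :: p, x, y, z => by
    rw [tcons, v3_cons, v3_tcons r p x y z, v2_cons, v2_cons, v3_cons]
    ring

theorem v3_swp : ∀ (p : D3) (x y z : ℝ), v3 (swp p) y x z = v3 p x y z
  | [], x, y, z => rfl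
  | r :: p, x, y, z => by rw [swp, v3_tcons, v3_swp p x y z, v3_cons]

end Pool.Agent.SOS
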