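import Mathlib

/-!
# Kernel checker for positivity certificates (helper49, for MP_37fa12_co)

Polynomials in three variables are lists of terms `(c, i, j, k)` meaning `c a^i b^j c^k`.  A
certificate for `P` on the region `a, b, c ≥ 0`, `g ≥ 0` for the multipliers `g`: rows (polynomials
`l`), packed in natural numbers, such that all coefficients of `P - ∑ g ∑ l^2` are nonnegative.
This difference is computed as one integer, its value at `(z, z^d1, z^(d1 d2))`, `z = 2^K`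
(Kronecker substitution), whose digits in base `z` have to be small.
-/

set_option autoImplicit false

namespace Pool.Agent.SOS

abbrev Tm : Type := ℤ × ℕ × ℕ × ℕ

/-- the value of a polynomial -/
def ev {R : Type} [CommRing R] (p : List Tm) (a b c : R) : R :=
  (p.map fun t => (t.1 : R) * (a ^ t.2.1 * (b ^ t.2.2.1 * c ^ t.2.2.2))).sum

/-! ### theory of term lists -/

def mulT (s t : Tm) : Tm := (s.1 * t.1, s.2.1 + t.2.1, s.2.2.1 + t.2.2.1, s.2.2.2 + t.2.2.2)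

def mul (p q : List Tm) : List Tm := p.flatMap fun s => q.map (mulT s)

def neg (p : List Tm) : List Tm := p.map fun t => (-t.1, t.2)

def n1 (p : List Tm) : ℕ := (p.map fun t => t.1.natAbs).sum

section

variable {R : Type} [CommRing R] (a b c : R)

theorem ev_nil : ev [] a b c = 0 := rfl

theorem ev_cons (t : Tm) (p : List Tm) :
    ev (t :: p) a b c = (t.1 : R) * (a ^ t.2.1 * (b ^ t.2.2.1 * c ^ t.2.2.2)) + ev p a b c := by
  simp [ev]

theorem ev_append (p q : List Tm) : ev (p ++ q) a b c = ev p a b c + ev q a b c := by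
  simp [ev]

theorem ev_neg (p : List Tm) : ev (neg p) a b c = - ev p a b c := by
  induction p with
  | nil => simp [ev, neg]
  | cons t p ih =>
    have h : neg (t :: p) = (-t.1, t.2) :: neg p := rfl
    rw [h, ev_cons, ev_cons, ih]
    push_cast
    ring

theorem ev_mulT (t : Tm) (q : List Tm) : ev (q.map (mulT t)) a b c =
    (t.1 : R) * (a ^ t.2.1 * (b ^ t.2.2.1 * c ^ t.2.2.2)) * ev q a b c := by
  induction q with
  | nil => simp [ev]
  | cons s q ih =>
    rw [List.map_cons, ev_cons, ih, ev_cons]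
    simp only [mulT, Int.cast_mul, pow_add]
    ring

theorem ev_mul (p q : List Tm) : ev (mul p q) a b c = ev p a b c * ev q a b c := by
  induction p with
  | nil => simp [ev, mul]
  | cons t p ih =>
    have h : mul (t :: p) q = q.map (mulT t) ++ mul p q := rfl
    rw [h, ev_append, ih, ev_mulT, ev_cons]
    ring

end

theorem n1_nil : n1 [] = 0 := rfl

theorem n1_cons (t : Tm) (p : List Tm) : n1 (t :: p) = t.1.natAbs + n1 p := by
  simp [n1]

theorem n1_append (p q : List Tm) : n1 (p ++ q) = n1 p + n1 q := by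
  simp [n1]

theorem n1_neg (p : List Tm) : n1 (neg p) = n1 p := by
  induction p with
  | nil => rfl
  | cons t p ih =>
    have h : neg (t :: p) = (-t.1, t.2) :: neg p := rfl
    rw [h, n1_cons, n1_cons, ih, Int.natAbs_neg]

theorem n1_mulT (t : Tm) (q : List Tm) : n1 (q.map (mulT t)) = t.1.natAbs * n1 q := by
  induction q with
  | nil => simp [n1]
  | cons s q ih =>
    rw [List.map_cons, n1_cons, ih, n1_cons]
    simp only [mulT, Int.natAbs_mul]
    ring

theorem n1_mul (p q : List Tm) : n1 (mul p q) = n1 p * n1 q := by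
  induction p with
  | nil => simp [n1, mul]
  | cons t p ih =>
    have h : mul (t :: p) q = q.map (mulT t) ++ mul p q := rfl
    rw [h, n1_append, ih, n1_mulT, n1_cons]
    ring

/-- the exponents of `a`, `b` are at most `A`, `B` -/
def Bd (A B : ℕ) (p : List Tm) : Prop := ∀ t ∈ p, t.2.1 ≤ A ∧ t.2.2.1 ≤ B

theorem Bd.append {A B : ℕ} {p q : List Tm} (hp : Bd A B p) (hq : Bd A B q) : Bd A B (p ++ q) := by
  intro t ht
  rcases List.mem_append.1 ht with h | h
  · exact hp t h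
  · exact hq t h

theorem Bd.neg {A B : ℕ} {p : List Tm} (hp : Bd A B p) : Bd A B (neg p) := by
  intro t ht
  obtain ⟨s, hs, rfl⟩ := List.mem_map.1 ht
  exact hp s hs

theorem Bd.mul {A B A' B' : ℕ} {p q : List Tm} (hp : Bd A B p) (hq : Bd A' B' q) :
    Bd (A + A') (B + B') (mul p q) := by
  intro t ht
  obtain ⟨s, hs, ht2⟩ := List.mem_flatMap.1 ht
  obtain ⟨r, hr, rfl⟩ := List.mem_map.1 ht2
  exact ⟨Nat.add_le_add (hp s hs).1 (hq r hr).1, Nat.add_le_add (hp s hs).2 (hq r hr).2⟩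

theorem Bd.mono {A B A' B' : ℕ} {p : List Tm} (hp : Bd A B p) (hA : A ≤ A') (hB : B ≤ B') :
    Bd A' B' p := fun t ht => ⟨(hp t ht).1.trans hA, (hp t ht).2.trans hB⟩

/-- the index of a monomial -/
def idx (d1 d2 : ℕ) (t : ℕ × ℕ × ℕ) : ℕ := t.1 + d1 * (t.2.1 + d2 * t.2.2)

/-- the coefficient of the monomial with the index `e` -/
def cf (d1 d2 : ℕ) (p : List Tm) (e : ℕ) : ℤ :=
  (p.map fun t => if idx d1 d2 t.2 = e then t.1 else 0).sum

theorem cf_cons (d1 d2 : ℕ) (t : Tm) (p : List Tm) (e : ℕ) :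
    cf d1 d2 (t :: p) e = (if idx d1 d2 t.2 = e then t.1 else 0) + cf d1 d2 p e := by
  simp [cf]

theorem cf_abs (d1 d2 : ℕ) (p : List Tm) (e : ℕ) : |cf d1 d2 p e| ≤ (n1 p : ℤ) := by
  induction p with
  | nil => simp [cf, n1]
  | cons t p ih =>
    rw [cf_cons, n1_cons]
    refine (abs_add_le _ _).trans ?_
    push_cast
    refine add_le_add ?_ ih
    split_ifs with h
    · exact le_refl _
    · simp

/-- regrouping -/
theorem regroup {R : Type} [CommRing R] (d1 d2 E : ℕ) (m : ℕ → R) (f : Tm → R) (p : List Tm)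
    (hE : ∀ t ∈ p, idx d1 d2 t.2 < E) (hf : ∀ t ∈ p, f t = (t.1 : R) * m (idx d1 d2 t.2)) :
    (p.map f).sum = ∑ e ∈ Finset.range E, (cf d1 d2 p e : R) * m e := by
  induction p with
  | nil => simp [cf]
  | cons t p ih =>
    rw [List.map_cons, List.sum_cons, ih (fun s hs => hE s (List.mem_cons_of_mem _ hs))
      (fun s hs => hf s (List.mem_cons_of_mem _ hs)), hf t List.mem_cons_self]
    have h1 : ∀ e ∈ Finset.range E, (cf d1 d2 (t :: p) e : R) * m e =
        (if idx d1 d2 t.2 = e then (t.1 : R) * m (idx d1 d2 t.2) else 0) +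
          (cf d1 d2 p e : R) * m e := by
      intro e _
      rw [cf_cons]
      push_cast
      split_ifs with h
      · rw [h]
        ring
      · ring
    rw [Finset.sum_congr rfl h1, Finset.sum_add_distrib, Finset.sum_ite_eq, if_pos]
    exact Finset.mem_range.2 (hE t List.mem_cons_self)

/-- uniqueness of expansions -/
theorem uniq (z : ℤ) (hz : 0 < z) : ∀ (E : ℕ) (u : ℕ → ℤ), (∀ e, |u e| < z) →
    ∑ e ∈ Finset.range E, u e * z ^ e = 0 → ∀ e < E, u e = 0 := by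
  intro E
  induction E with
  | zero => intro u _ _ e he; exact absurd he (Nat.not_lt_zero e)
  | succ E ih =>
    intro u hu hs
    rw [Finset.sum_range_succ'] at hs
    have h1 : ∑ e ∈ Finset.range E, u (e + 1) * z ^ (e + 1) =
        z * ∑ e ∈ Finset.range E, u (e + 1) * z ^ e := by
      rw [Finset.mul_sum]
      exact Finset.sum_congr rfl fun e _ => by ring
    rw [h1, pow_zero, mul_one] at hs
    have h2 : z ∣ u 0 := ⟨-∑ e ∈ Finset.range E, u (e + 1) * z ^ e, by linarith⟩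
    have h3 : u 0 = 0 := Int.eq_zero_of_abs_lt_dvd h2 (hu 0)
    rw [h3, add_zero] at hs
    have h4 : ∑ e ∈ Finset.range E, u (e + 1) * z ^ e = 0 := by
      rcases mul_eq_zero.1 hs with h | h
      · exact absurd h hz.ne'
      · exact h
    have h5 := ih (fun e => u (e + 1)) (fun e => hu (e + 1)) h4
    intro e he
    rcases e with _ | e
    · exact h3
    · exact h5 e (by omega)

/-- all digits in base `z` are at most `β`; `f` digits -/
def dg (z β : ℕ) : ℕ → ℕ → Bool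
  | 0, D => Nat.beq D 0
  | f + 1, D => Nat.ble (D % z) β && dg z β f (D / z)

theorem dg_sound (z β : ℕ) : ∀ f D : ℕ, dg z β f D = true →
    ∃ δ : ℕ → ℕ, (∀ e, δ e ≤ β) ∧ D = ∑ e ∈ Finset.range f, δ e * z ^ e := by
  intro f
  induction f with
  | zero =>
    intro D h
    exact ⟨fun _ => 0, fun _ => Nat.zero_le _, by simpa using Nat.eq_of_beq_eq_true h⟩
  | succ f ih =>
    intro D h
    simp only [dg, Bool.and_eq_true] at h
    obtain ⟨δ, h1, h2⟩ := ih _ h.2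
    refine ⟨fun e => Nat.casesOn e (D % z) δ, ?_, ?_⟩
    · intro e
      rcases e with _ | e
      · exact Nat.le_of_ble_eq_true h.1
      · exact h1 e
    · rw [Finset.sum_range_succ']
      have h3 : ∑ e ∈ Finset.range f, δ e * z ^ (e + 1) = z * (D / z) := by
        rw [h2, Finset.mul_sum]
        exact Finset.sum_congr rfl fun e _ => by ring
      show D = ∑ e ∈ Finset.range f, δ e * z ^ (e + 1) + (D % z) * z ^ 0
      rw [h3, pow_zero, mul_one]
      exact (Nat.div_add_mod D z).symm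

theorem idx_mod {d1 d2 i j k : ℕ} (hi : i < d1) (hj : j < d2) :
    idx d1 d2 (i, j, k) % d1 = i ∧ idx d1 d2 (i, j, k) / d1 % d2 = j ∧
      idx d1 d2 (i, j, k) / d1 / d2 = k := by
  have h1 : idx d1 d2 (i, j, k) / d1 = j + d2 * k := by
    show (i + d1 * (j + d2 * k)) / d1 = _
    rw [Nat.add_mul_div_left _ _ (by omega), Nat.div_eq_of_lt hi, Nat.zero_add]
  refine ⟨?_, ?_, ?_⟩
  · show (i + d1 * (j + d2 * k)) % d1 = i
    rw [Nat.add_mul_mod_self_left, Nat.mod_eq_of_lt hi]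
  · rw [h1, Nat.add_mul_mod_self_left, Nat.mod_eq_of_lt hj]
  · rw [h1, Nat.add_mul_div_left _ _ (by omega), Nat.div_eq_of_lt hj, Nat.zero_add]

/-- **the Kronecker lemma** -/
theorem kron (d1 d2 z β E D : ℕ) (F : List Tm) (hF : Bd (d1 - 1) (d2 - 1) F) (h1 : 1 ≤ d1)
    (h2 : 1 ≤ d2) (hz : n1 F + β < z)
    (hD : ev F (z : ℤ) ((z : ℤ) ^ d1) ((z : ℤ) ^ (d1 * d2)) = (D : ℤ)) (hdg : dg z β E D = true)
    (a b c : ℝ) (ha : 0 ≤ a) (hb : 0 ≤ b) (hc : 0 ≤ c) : 0 ≤ ev F a b c := by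
  obtain ⟨δ, hδ, hDs⟩ := dg_sound z β E D hdg
  obtain ⟨M, hM⟩ : ∃ M, ∀ t ∈ F, idx d1 d2 t.2 < M := by
    refine ⟨(F.map fun t => idx d1 d2 t.2).sum + 1, fun t ht => ?_⟩
    have := List.single_le_sum (l := F.map fun t => idx d1 d2 t.2) (fun x _ => Nat.zero_le x) _
      (List.mem_map.2 ⟨t, ht, rfl⟩)
    omega
  obtain ⟨N, hN⟩ : ∃ N, N = M + E := ⟨_, rfl⟩
  have hMN : ∀ t ∈ F, idx d1 d2 t.2 < N := fun t ht => by have := hM t ht; omega
  have hlt : ∀ t ∈ F, t.2.1 < d1 ∧ t.2.2.1 < d2 := fun t ht => by have := hF t ht; omega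
  -- the integer
  have e1 : ev F (z : ℤ) ((z : ℤ) ^ d1) ((z : ℤ) ^ (d1 * d2)) =
      ∑ e ∈ Finset.range N, cf d1 d2 F e * (z : ℤ) ^ e := by
    have := regroup (R := ℤ) d1 d2 N (fun e => (z : ℤ) ^ e) (fun t => (t.1 : ℤ) *
      ((z : ℤ) ^ t.2.1 * (((z : ℤ) ^ d1) ^ t.2.2.1 * ((z : ℤ) ^ (d1 * d2)) ^ t.2.2.2))) F hMN
      (fun t _ => by
        show (t.1 : ℤ) * _ = (t.1 : ℤ) * _
        congr 1
        show _ = (z : ℤ) ^ (t.2.1 + d1 * (t.2.2.1 + d2 * t.2.2.2))
        rw [← pow_mul, ← pow_mul, ← pow_add, ← pow_add]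
        congr 1
        ring)
    simpa [ev] using this
  have e2 : (D : ℤ) = ∑ e ∈ Finset.range N, ((if e < E then δ e else 0 : ℕ) : ℤ) * (z : ℤ) ^ e := by
    rw [hDs]
    push_cast
    rw [hN, Nat.add_comm M E, Finset.sum_range_add]
    have h3 : ∀ x ∈ Finset.range M, ((if E + x < E then (δ (E + x) : ℤ) else 0)) *
        (z : ℤ) ^ (E + x) = 0 := by
      intro x _
      rw [if_neg (by omega), zero_mul]
    rw [Finset.sum_eq_zero h3, add_zero]
    apply Finset.sum_congr rfl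
    intro e he
    rw [if_pos (Finset.mem_range.1 he)]
  have hz0 : (0 : ℤ) < z := by
    have : 0 < z := by omega
    exact_mod_cast this
  have key := uniq (z : ℤ) hz0 N (fun e => cf d1 d2 F e - ((if e < E then δ e else 0 : ℕ) : ℤ))
    (by
      intro e
      have h3 := cf_abs d1 d2 F e
      have h4 : (((if e < E then δ e else 0 : ℕ)) : ℤ) ≤ (β : ℤ) := by
        have : (if e < E then δ e else 0 : ℕ) ≤ β := by
          split_ifs
          · exact hδ e
          · exact Nat.zero_le _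
        exact_mod_cast this
      have h5 : (0 : ℤ) ≤ (((if e < E then δ e else 0 : ℕ)) : ℤ) := Int.natCast_nonneg _
      have h6 : ((n1 F + β : ℕ) : ℤ) < z := by exact_mod_cast hz
      push_cast at h6
      rw [abs_lt]
      rw [abs_le] at h3
      constructor <;> linarith [h3.1, h3.2])
    (by
      have h3 : ∑ e ∈ Finset.range N, (cf d1 d2 F e - ((if e < E then δ e else 0 : ℕ) : ℤ)) *
          (z : ℤ) ^ e = ∑ e ∈ Finset.range N, cf d1 d2 F e * (z : ℤ) ^ e -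
            ∑ e ∈ Finset.range N, ((if e < E then δ e else 0 : ℕ) : ℤ) * (z : ℤ) ^ e := by
        rw [← Finset.sum_sub_distrib]
        exact Finset.sum_congr rfl fun e _ => by ring
      rw [h3, ← e1, ← e2, hD, sub_self])
  have e3 : ev F a b c = ∑ e ∈ Finset.range N, (cf d1 d2 F e : ℝ) *
      (a ^ (e % d1) * (b ^ (e / d1 % d2) * c ^ (e / d1 / d2))) :=
    regroup (R := ℝ) d1 d2 N _ _ F hMN (fun t ht => by
      obtain ⟨h3, h4, h5⟩ := idx_mod (k := t.2.2.2) (hlt t ht).1 (hlt t ht).2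
      have h6 : t.2 = (t.2.1, t.2.2.1, t.2.2.2) := rfl
      rw [h6, h3, h4, h5])
  rw [e3]
  apply Finset.sum_nonneg
  intro e he
  apply mul_nonneg
  · have h3 := key e (Finset.mem_range.1 he)
    have h4 : cf d1 d2 F e = ((if e < E then δ e else 0 : ℕ) : ℤ) := by
      have : cf d1 d2 F e - ((if e < E then δ e else 0 : ℕ) : ℤ) = 0 := h3
      linarith
    have h5 : 0 ≤ cf d1 d2 F e := by rw [h4]; exact Int.natCast_nonneg _
    exact_mod_cast h5
  · positivity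

/-! ### data -/

/-- a block `g ∑ l^2`; `ex`: for each monomial of the rows the position `p` of its coefficient in
the packed rows, the shift `s = K idx`, the exponents -/
structure Blk where
  g : List Tm
  ga : ℕ
  gb : ℕ
  ea : ℕ
  eb : ℕ
  ex : List (ℕ × ℕ × ℕ × ℕ × ℕ)
  sh : List (ℕ × ℕ)
  rows : List ℕ
  sm : ℕ

/-- the value of a row at the Kronecker point, shifted -/
noncomputable def rowX (W n : ℕ) (sh : List (ℕ × ℕ)) : ℕ :=
  List.rec (motive := fun _ => ℕ) 0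
    (fun q _ ih => Nat.add (Nat.shiftLeft (Nat.mod (Nat.shiftRight n q.1) W) q.2) ih) sh

/-- the shift -/
noncomputable def offX (H : ℕ) (sh : List (ℕ × ℕ)) : ℕ :=
  List.rec (motive := fun _ => ℕ) 0 (fun q _ ih => Nat.add (Nat.shiftLeft H q.2) ih) sh

/-- the positions and shifts -/
def shf (ex : List (ℕ × ℕ × ℕ × ℕ × ℕ)) : List (ℕ × ℕ) := ex.map fun q => (q.1, q.2.1)

def okS : List (ℕ × ℕ) → List (ℕ × ℕ × ℕ × ℕ × ℕ) → Bool
  | [], [] => true
  | a :: l, q :: m => (Nat.beq a.1 q.1 && Nat.beq a.2 q.2.1) && okS l m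
  | _, _ => false

theorem okS_eq : ∀ (l : List (ℕ × ℕ)) (m : List (ℕ × ℕ × ℕ × ℕ × ℕ)), okS l m = true → l = shf m
  | [], [], _ => rfl
  | [], _ :: _, h => by simp [okS] at h
  | _ :: _, [], h => by simp [okS] at h
  | a :: l, q :: m, h => by
    simp only [okS, Bool.and_eq_true] at h
    have h1 := Nat.eq_of_beq_eq_true h.1.1
    have h2 := Nat.eq_of_beq_eq_true h.1.2
    rw [okS_eq l m h.2]
    show (a.1, a.2) :: shf m = (q.1, q.2.1) :: shf m
    rw [h1, h2]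

def sqd (X O : ℕ) : ℕ := Nat.pow (Nat.add (Nat.sub X O) (Nat.sub O X)) 2

noncomputable def sumSq (W O : ℕ) (sh : List (ℕ × ℕ)) (rows : List ℕ) : ℕ :=
  List.rec (motive := fun _ => ℕ) 0 (fun n _ ih => Nat.add (sqd (rowX W n sh) O) ih) rows

/-- positive part of the value at the Kronecker point -/
def evP (K d1 d2 : ℕ) : List Tm → ℕ
  | [] => 0
  | t :: l => Nat.add (Nat.shiftLeft (Int.toNat t.1) (K * idx d1 d2 t.2)) (evP K d1 d2 l)

/-- negative part of the value at the Kronecker point -/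
def evN (K d1 d2 : ℕ) : List Tm → ℕ
  | [] => 0
  | t :: l => Nat.add (Nat.shiftLeft (Int.toNat (-t.1)) (K * idx d1 d2 t.2)) (evN K d1 d2 l)

def okE (K d1 d2 A B : ℕ) : List (ℕ × ℕ × ℕ × ℕ × ℕ) → Bool
  | [] => true
  | q :: l => (Nat.beq q.2.1 (K * idx d1 d2 q.2.2) && (Nat.ble q.2.2.1 A && Nat.ble q.2.2.2.1 B)) &&
      okE K d1 d2 A B l

def okT (A B : ℕ) : List Tm → Bool
  | [] => true
  | t :: l => (Nat.ble t.2.1 A && Nat.ble t.2.2.1 B) && okT A B l

def okB (K d1 d2 : ℕ) (b : Blk) : Bool :=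
  (okS b.sh b.ex && okE K d1 d2 b.ea b.eb b.ex) && (okT b.ga b.gb b.g &&
    (Nat.ble (b.ga + (b.ea + b.ea)) (d1 - 1) && Nat.ble (b.gb + (b.eb + b.eb)) (d2 - 1)))

/-- the value of the sum of the squares is `sm` -/
def SmOk (H : ℕ) (b : Blk) : Prop := sumSq (2 * H) (offX H b.sh) b.sh b.rows = b.sm

/-- the check of `SmOk` with literals -/
theorem smOk_of {H W O S : ℕ} {sh : List (ℕ × ℕ)} {rows : List ℕ} {b : Blk}
    (h1 : b.sh = sh) (h2 : b.rows = rows) (h3 : b.sm = S)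
    (h4 : (Nat.beq (2 * H) W && Nat.beq (offX H sh) O) = true)
    (h5 : Nat.beq (sumSq W O sh rows) S = true) : SmOk H b := by
  simp only [Bool.and_eq_true] at h4
  unfold SmOk
  rw [h1, h2, h3, Nat.eq_of_beq_eq_true h4.1, Nat.eq_of_beq_eq_true h4.2]
  exact Nat.eq_of_beq_eq_true h5

def totP (K d1 d2 : ℕ) : List Blk → ℕ
  | [] => 0
  | b :: l => Nat.add (Nat.mul (evP K d1 d2 b.g) b.sm) (totP K d1 d2 l)

def totN (K d1 d2 : ℕ) : List Blk → ℕ
  | [] => 0
  | b :: l => Nat.add (Nat.mul (evN K d1 d2 b.g) b.sm) (totN K d1 d2 l)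

def bnd (H : ℕ) : List Blk → ℕ
  | [] => 0
  | b :: l => n1 b.g * (b.rows.length * ((b.ex.length * H) * (b.ex.length * H))) + bnd H l

def allB (K d1 d2 : ℕ) : List Blk → Bool
  | [] => true
  | b :: l => okB K d1 d2 b && allB K d1 d2 l

/-- `L = R + D` and the digits of `D` are small -/
def fin (z β E L R D : ℕ) : Bool := Nat.beq L (Nat.add R D) && dg z β E D

/-- the checker -/
def chk (K d1 d2 H β E D : ℕ) (P : List Tm) (bs : List Blk) : Bool :=
  (Nat.ble 1 d1 && (Nat.ble 1 d2 && Nat.ble 1 H)) && (okT (d1 - 1) (d2 - 1) P && (allB K d1 d2 bs &&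
    (Nat.blt (n1 P + bnd H bs + β) (2 ^ K) &&
      fin (2 ^ K) β E (Nat.add (evP K d1 d2 P) (totN K d1 d2 bs))
        (Nat.add (evN K d1 d2 P) (totP K d1 d2 bs)) D)))

/-! ### correctness -/

/-- the polynomial of a row -/
def rowT (H n : ℕ) (ex : List (ℕ × ℕ × ℕ × ℕ × ℕ)) : List Tm :=
  ex.map fun q => (((Nat.mod (Nat.shiftRight n q.1) (2 * H) : ℕ) : ℤ) - (H : ℤ), q.2.2)

/-- the sum of the squares of the rows -/
def sqT (H : ℕ) (ex : List (ℕ × ℕ × ℕ × ℕ × ℕ)) (rows : List ℕ) : List Tm :=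
  rows.flatMap fun n => mul (rowT H n ex) (rowT H n ex)

theorem okE_mem {K d1 d2 A B : ℕ} : ∀ {ex : List (ℕ × ℕ × ℕ × ℕ × ℕ)},
    okE K d1 d2 A B ex = true → ∀ q ∈ ex, q.2.1 = K * idx d1 d2 q.2.2 ∧ q.2.2.1 ≤ A ∧
      q.2.2.2.1 ≤ B
  | [], _, q, hq => absurd hq List.not_mem_nil
  | r :: l, h, q, hq => by
    simp only [okE, Bool.and_eq_true] at h
    rcases List.mem_cons.1 hq with rfl | hq
    · exact ⟨Nat.eq_of_beq_eq_true h.1.1, Nat.le_of_ble_eq_true h.1.2.1,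
        Nat.le_of_ble_eq_true h.1.2.2⟩
    · exact okE_mem h.2 q hq

theorem okT_bd {A B : ℕ} : ∀ {p : List Tm}, okT A B p = true → Bd A B p
  | [], _ => fun t ht => absurd ht List.not_mem_nil
  | r :: l, h => by
    simp only [okT, Bool.and_eq_true] at h
    intro t ht
    rcases List.mem_cons.1 ht with rfl | ht
    · exact ⟨Nat.le_of_ble_eq_true h.1.1, Nat.le_of_ble_eq_true h.1.2⟩
    · exact okT_bd h.2 t ht

/-- the value at the Kronecker point -/
def kv (K d1 d2 : ℕ) (p : List Tm) : ℤ :=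
  ev p ((2 ^ K : ℕ) : ℤ) (((2 ^ K : ℕ) : ℤ) ^ d1) (((2 ^ K : ℕ) : ℤ) ^ (d1 * d2))

theorem kv_cons (K d1 d2 : ℕ) (t : Tm) (p : List Tm) :
    kv K d1 d2 (t :: p) = t.1 * (2 : ℤ) ^ (K * idx d1 d2 t.2) + kv K d1 d2 p := by
  unfold kv
  rw [ev_cons]
  congr 1
  show (t.1 : ℤ) * _ = _
  congr 1
  push_cast
  rw [← pow_mul, ← pow_mul, ← pow_mul, ← pow_mul, ← pow_mul, ← pow_add, ← pow_add]
  congr 1
  unfold idx
  ring

theorem shl (a s : ℕ) : ((Nat.shiftLeft a s : ℕ) : ℤ) = (a : ℤ) * (2 : ℤ) ^ s := by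
  have h : Nat.shiftLeft a s = a * 2 ^ s := Nat.shiftLeft_eq a s
  rw [h]
  push_cast
  rfl

theorem evPN (K d1 d2 : ℕ) : ∀ p : List Tm,
    ((evP K d1 d2 p : ℕ) : ℤ) - ((evN K d1 d2 p : ℕ) : ℤ) = kv K d1 d2 p
  | [] => by simp [evP, evN, kv, ev]
  | t :: l => by
    have ih := evPN K d1 d2 l
    rw [kv_cons, ← ih]
    show ((Nat.shiftLeft (Int.toNat t.1) _ + evP K d1 d2 l : ℕ) : ℤ) -
      ((Nat.shiftLeft (Int.toNat (-t.1)) _ + evN K d1 d2 l : ℕ) : ℤ) = _
    rw [Nat.cast_add, Nat.cast_add, shl, shl]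
    have h : ((Int.toNat t.1 : ℕ) : ℤ) - ((Int.toNat (-t.1) : ℕ) : ℤ) = t.1 :=
      Int.toNat_sub_toNat_neg t.1
    have h2 : t.1 * (2 : ℤ) ^ (K * idx d1 d2 t.2) =
        (((Int.toNat t.1 : ℕ) : ℤ) - ((Int.toNat (-t.1) : ℕ) : ℤ)) *
          (2 : ℤ) ^ (K * idx d1 d2 t.2) := by rw [h]
    rw [h2]
    ring

theorem rowX_kv (K d1 d2 A B H n : ℕ) : ∀ ex : List (ℕ × ℕ × ℕ × ℕ × ℕ),
    okE K d1 d2 A B ex = true →
      ((rowX (2 * H) n (shf ex) : ℕ) : ℤ) - ((offX H (shf ex) : ℕ) : ℤ) = kv K d1 d2 (rowT H n ex)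
  | [], _ => by simp [rowX, offX, rowT, kv, ev, shf]
  | q :: l, h => by
    simp only [okE, Bool.and_eq_true] at h
    have ih := rowX_kv K d1 d2 A B H n l h.2
    have h1 : q.2.1 = K * idx d1 d2 q.2.2 := Nat.eq_of_beq_eq_true h.1.1
    have h2 : rowT H n (q :: l) = (((Nat.mod (Nat.shiftRight n q.1) (2 * H) : ℕ) : ℤ) - (H : ℤ),
      q.2.2) :: rowT H n l := rfl
    rw [h2, kv_cons, ← ih]
    show ((Nat.shiftLeft (Nat.mod (Nat.shiftRight n q.1) (2 * H)) q.2.1 +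
      rowX (2 * H) n (shf l) : ℕ) : ℤ) -
      ((Nat.shiftLeft H q.2.1 + offX H (shf l) : ℕ) : ℤ) = _
    rw [Nat.cast_add, Nat.cast_add, shl, shl, h1]
    ring

theorem sqd_cast (X O : ℕ) : ((sqd X O : ℕ) : ℤ) = ((X : ℤ) - (O : ℤ)) * ((X : ℤ) - (O : ℤ)) := by
  have h : sqd X O = ((X - O) + (O - X)) ^ 2 := rfl
  rw [h]
  rcases le_total X O with h1 | h1
  · rw [Nat.sub_eq_zero_of_le h1, Nat.zero_add]
    push_cast [Nat.cast_sub h1]
    ring
  · rw [Nat.sub_eq_zero_of_le h1, Nat.add_zero]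
    push_cast [Nat.cast_sub h1]
    ring

theorem kv_append (K d1 d2 : ℕ) (p q : List Tm) :
    kv K d1 d2 (p ++ q) = kv K d1 d2 p + kv K d1 d2 q := ev_append _ _ _ p q

theorem kv_mul (K d1 d2 : ℕ) (p q : List Tm) :
    kv K d1 d2 (mul p q) = kv K d1 d2 p * kv K d1 d2 q := ev_mul _ _ _ p q

theorem sumSq_kv (K d1 d2 A B H : ℕ) (ex : List (ℕ × ℕ × ℕ × ℕ × ℕ))
    (h : okE K d1 d2 A B ex = true) : ∀ rows : List ℕ,
      ((sumSq (2 * H) (offX H (shf ex)) (shf ex) rows : ℕ) : ℤ) = kv K d1 d2 (sqT H ex rows)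
  | [] => by simp [sumSq, sqT, kv, ev]
  | n :: l => by
    have ih := sumSq_kv K d1 d2 A B H ex h l
    have h1 : sqT H ex (n :: l) = mul (rowT H n ex) (rowT H n ex) ++ sqT H ex l := rfl
    rw [h1, kv_append, kv_mul, ← ih, ← rowX_kv K d1 d2 A B H n ex h, ← sqd_cast]
    show ((sqd (rowX (2 * H) n (shf ex)) (offX H (shf ex)) +
      sumSq (2 * H) (offX H (shf ex)) (shf ex) l : ℕ) : ℤ) = _
    rw [Nat.cast_add]

theorem rowT_bd {K d1 d2 A B H n : ℕ} {ex : List (ℕ × ℕ × ℕ × ℕ × ℕ)}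
    (h : okE K d1 d2 A B ex = true) : Bd A B (rowT H n ex) := by
  intro t ht
  obtain ⟨q, hq, rfl⟩ := List.mem_map.1 ht
  exact (okE_mem h q hq).2

theorem rowT_n1 (H n : ℕ) (hH : 1 ≤ H) : ∀ ex : List (ℕ × ℕ × ℕ × ℕ × ℕ),
    n1 (rowT H n ex) ≤ ex.length * H
  | [] => by simp [rowT, n1]
  | q :: l => by
    have ih := rowT_n1 H n hH l
    have h2 : rowT H n (q :: l) = (((Nat.mod (Nat.shiftRight n q.1) (2 * H) : ℕ) : ℤ) - (H : ℤ),
      q.2.2) :: rowT H n l := rfl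
    rw [h2, n1_cons, List.length_cons, Nat.add_mul, Nat.one_mul, Nat.add_comm]
    refine Nat.add_le_add ih ?_
    show (((Nat.mod (Nat.shiftRight n q.1) (2 * H) : ℕ) : ℤ) - (H : ℤ)).natAbs ≤ H
    have h3 : Nat.mod (Nat.shiftRight n q.1) (2 * H) < 2 * H := Nat.mod_lt _ (by omega)
    omega

/-- the polynomial of the blocks -/
def totT (H : ℕ) : List Blk → List Tm
  | [] => []
  | b :: l => neg (mul b.g (sqT H b.ex b.rows)) ++ totT H l

theorem sqT_n1 (H : ℕ) (hH : 1 ≤ H) (ex : List (ℕ × ℕ × ℕ × ℕ × ℕ)) : ∀ rows : List ℕ,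
    n1 (sqT H ex rows) ≤ rows.length * ((ex.length * H) * (ex.length * H))
  | [] => by simp [sqT, n1]
  | n :: l => by
    have ih := sqT_n1 H hH ex l
    have h1 : sqT H ex (n :: l) = mul (rowT H n ex) (rowT H n ex) ++ sqT H ex l := rfl
    rw [h1, n1_append, n1_mul, List.length_cons, Nat.add_mul, Nat.one_mul, Nat.add_comm]
    exact Nat.add_le_add ih (Nat.mul_le_mul (rowT_n1 H n hH ex) (rowT_n1 H n hH ex))

theorem totT_n1 (H : ℕ) (hH : 1 ≤ H) : ∀ bs : List Blk, n1 (totT H bs) ≤ bnd H bs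
  | [] => by simp [totT, n1]
  | b :: l => by
    have ih := totT_n1 H hH l
    show n1 (neg (mul b.g (sqT H b.ex b.rows)) ++ totT H l) ≤ n1 b.g * _ + bnd H l
    rw [n1_append, n1_neg, n1_mul]
    exact Nat.add_le_add (Nat.mul_le_mul le_rfl (sqT_n1 H hH b.ex b.rows)) ih

theorem sqT_bd {K d1 d2 A B H : ℕ} {ex : List (ℕ × ℕ × ℕ × ℕ × ℕ)}
    (h : okE K d1 d2 A B ex = true) : ∀ rows : List ℕ, Bd (A + A) (B + B) (sqT H ex rows)
  | [] => fun t ht => absurd ht List.not_mem_nil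
  | n :: l => by
    have ih := sqT_bd (H := H) h l
    exact Bd.append (Bd.mul (rowT_bd h) (rowT_bd h)) ih

theorem totT_bd {K d1 d2 H : ℕ} : ∀ {bs : List Blk}, allB K d1 d2 bs = true →
    Bd (d1 - 1) (d2 - 1) (totT H bs)
  | [], _ => fun t ht => absurd ht List.not_mem_nil
  | b :: l, h => by
    simp only [allB, Bool.and_eq_true, okB] at h
    obtain ⟨⟨⟨_, h1⟩, h2, h3, h4⟩, h5⟩ := h
    refine Bd.append ?_ (totT_bd h5)
    exact Bd.neg (Bd.mono (Bd.mul (okT_bd h2) (sqT_bd h1 b.rows)) (Nat.le_of_ble_eq_true h3)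
      (Nat.le_of_ble_eq_true h4))

theorem kv_neg (K d1 d2 : ℕ) (p : List Tm) : kv K d1 d2 (neg p) = - kv K d1 d2 p :=
  ev_neg _ _ _ p

theorem totT_kv {K d1 d2 H : ℕ} : ∀ {bs : List Blk}, allB K d1 d2 bs = true →
    (∀ b ∈ bs, SmOk H b) →
    ((totN K d1 d2 bs : ℕ) : ℤ) - ((totP K d1 d2 bs : ℕ) : ℤ) = kv K d1 d2 (totT H bs)
  | [], _, _ => by simp [totN, totP, totT, kv, ev]
  | b :: l, h, hS => by
    simp only [allB, Bool.and_eq_true] at h
    have ih := totT_kv (H := H) h.2 (fun x hx => hS x (List.mem_cons_of_mem _ hx))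
    have h1 := h.1
    simp only [okB, Bool.and_eq_true] at h1
    show ((evN K d1 d2 b.g * b.sm + totN K d1 d2 l : ℕ) : ℤ) -
      ((evP K d1 d2 b.g * b.sm + totP K d1 d2 l : ℕ) : ℤ) =
        kv K d1 d2 (neg (mul b.g (sqT H b.ex b.rows)) ++ totT H l)
    rw [kv_append, kv_neg, kv_mul, ← ih, ← evPN, ← sumSq_kv K d1 d2 b.ea b.eb H b.ex h1.1.2 b.rows,
      ← okS_eq _ _ h1.1.1]
    have h2 : sumSq (2 * H) (offX H b.sh) b.sh b.rows = b.sm := hS b List.mem_cons_self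
    rw [h2]
    push_cast
    ring

theorem ev_sq_nonneg (H : ℕ) (ex : List (ℕ × ℕ × ℕ × ℕ × ℕ)) (a b c : ℝ) : ∀ rows : List ℕ,
    0 ≤ ev (sqT H ex rows) a b c
  | [] => by simp [sqT, ev]
  | n :: l => by
    have ih := ev_sq_nonneg H ex a b c l
    have h1 : sqT H ex (n :: l) = mul (rowT H n ex) (rowT H n ex) ++ sqT H ex l := rfl
    rw [h1, ev_append, ev_mul]
    exact add_nonneg (mul_self_nonneg _) ih

theorem ev_tot (H : ℕ) (a b c : ℝ) : ∀ bs : List Blk, (∀ x ∈ bs, 0 ≤ ev x.g a b c) →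
    ev (totT H bs) a b c ≤ 0
  | [], _ => by simp [totT, ev]
  | x :: l, h => by
    have ih := ev_tot H a b c l (fun y hy => h y (List.mem_cons_of_mem _ hy))
    show ev (neg (mul x.g (sqT H x.ex x.rows)) ++ totT H l) a b c ≤ 0
    rw [ev_append, ev_neg, ev_mul]
    have h1 := mul_nonneg (h x List.mem_cons_self) (ev_sq_nonneg H x.ex a b c x.rows)
    linarith

/-- **correctness of the checker** -/
theorem chk_sound {K d1 d2 H β E D : ℕ} {P : List Tm} {bs : List Blk}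
    (h : chk K d1 d2 H β E D P bs = true) (hS : ∀ x ∈ bs, SmOk H x) (a b c : ℝ) (ha : 0 ≤ a) (hb : 0 ≤ b) (hc : 0 ≤ c)
    (hg : ∀ x ∈ bs, 0 ≤ ev x.g a b c) : 0 ≤ ev P a b c := by
  simp only [chk, Bool.and_eq_true, fin] at h
  obtain ⟨⟨h1, h2, hH⟩, h3, h4, h5, h6, h7⟩ := h
  have hd1 : 1 ≤ d1 := Nat.le_of_ble_eq_true h1
  have hd2 : 1 ≤ d2 := Nat.le_of_ble_eq_true h2
  have hH1 : 1 ≤ H := Nat.le_of_ble_eq_true hH
  have h8 : n1 P + bnd H bs + β < 2 ^ K := by
    have : Nat.ble (n1 P + bnd H bs + β + 1) (2 ^ K) = true := h5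
    exact Nat.le_of_ble_eq_true this
  have hR := Nat.eq_of_beq_eq_true h6
  have hz : n1 (P ++ totT H bs) + β < 2 ^ K := by
    rw [n1_append]
    have := totT_n1 H hH1 bs
    omega
  have hD : kv K d1 d2 (P ++ totT H bs) = (D : ℤ) := by
    rw [kv_append, ← evPN, ← totT_kv h4 hS]
    have e : ((evP K d1 d2 P + totN K d1 d2 bs : ℕ) : ℤ) =
        ((evN K d1 d2 P + totP K d1 d2 bs + D : ℕ) : ℤ) := congrArg _ hR
    push_cast at e
    linarith
  have key := kron d1 d2 (2 ^ K) β E _ (P ++ totT H bs) (Bd.append (okT_bd h3) (totT_bd h4))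
    hd1 hd2 hz hD h7 a b c ha hb hc
  rw [ev_append] at key
  have h9 := ev_tot H a b c bs hg
  linarith

/-! ### packed data -/

/-- a packed term -/
def dT (H n : ℕ) : Tm :=
  (Int.ofNat (Nat.shiftRight n 24) - Int.ofNat H, Nat.mod (Nat.shiftRight n 16) 256,
    Nat.mod (Nat.shiftRight n 8) 256, Nat.mod n 256)

/-- a packed polynomial -/
def dP (H : ℕ) : List ℕ → List Tm
  | [] => []
  | n :: l => dT H n :: dP H l

/-- a list of packed exponents -/
def dE (K d1 d2 w : ℕ) : ℕ → List ℕ → List (ℕ × ℕ × ℕ × ℕ × ℕ)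
  | _, [] => []
  | t, n :: l =>
    (w * t, K * idx d1 d2 (Nat.mod (Nat.shiftRight n 16) 256, Nat.mod (Nat.shiftRight n 8) 256,
      Nat.mod n 256), Nat.mod (Nat.shiftRight n 16) 256, Nat.mod (Nat.shiftRight n 8) 256,
      Nat.mod n 256) :: dE K d1 d2 w (t + 1) l

/-- a big number from its chunks of `B` bits -/
def jn (B : ℕ) (l : List ℕ) : ℕ := l.foldr (fun n r => Nat.add n (Nat.shiftLeft r B)) 0

end Pool.Agent.SOS
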